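import Mathlib

/-!
# Averages over finite types
-/

set_option autoImplicit false

open Finset

namespace Pool.Agent.Y975.SS

/-- average of a real function over a finite type -/
noncomputable def av {α : Type*} [Fintype α] (f : α → ℝ) : ℝ := (∑ x, f x) / Fintype.card α

section

variable {α β : Type*} [Fintype α] [Fintype β]

lemma av_mono {f g : α → ℝ} (h : ∀ x, f x ≤ g x) : av f ≤ av g := by
  unfold av
  exact div_le_div_of_nonneg_right (sum_le_sum fun x _ => h x) (Nat.cast_nonneg _)

lemma av_nonneg {f : α → ℝ} (h : ∀ x, 0 ≤ f x) : 0 ≤ av f := by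
  unfold av
  exact div_nonneg (sum_nonneg fun x _ => h x) (Nat.cast_nonneg _)

lemma av_const [Nonempty α] (c : ℝ) : av (fun _ : α => c) = c := by
  unfold av
  rw [sum_const, card_univ, nsmul_eq_mul]
  have : (Fintype.card α : ℝ) ≠ 0 := by exact_mod_cast Fintype.card_ne_zero
  field_simp

lemma av_add (f g : α → ℝ) : av (fun x => f x + g x) = av f + av g := by
  unfold av
  rw [sum_add_distrib, add_div]

lemma av_sub (f g : α → ℝ) : av (fun x => f x - g x) = av f - av g := by
  unfold av
  rw [sum_sub_distrib, sub_div]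

lemma av_mul_left (c : ℝ) (f : α → ℝ) : av (fun x => c * f x) = c * av f := by
  unfold av
  rw [← mul_sum, mul_div_assoc]

lemma av_mul_right (c : ℝ) (f : α → ℝ) : av (fun x => f x * c) = av f * c := by
  unfold av
  rw [← sum_mul, mul_div_right_comm]

lemma av_sum {ι : Type*} (s : Finset ι) (f : ι → α → ℝ) :
    av (fun x => ∑ i ∈ s, f i x) = ∑ i ∈ s, av (f i) := by
  unfold av
  rw [sum_comm, sum_div]

lemma av_congr {f g : α → ℝ} (h : ∀ x, f x = g x) : av f = av g := by
  have : f = g := funext h
  rw [this]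

lemma av_equiv (e : α ≃ β) (f : β → ℝ) : av (fun x => f (e x)) = av f := by
  unfold av
  rw [e.sum_comp f, Fintype.card_congr e]

lemma av_prod (f : α × β → ℝ) : av f = av (fun a => av (fun b => f (a, b))) := by
  unfold av
  rw [Fintype.sum_prod_type, Fintype.card_prod]
  push_cast
  rw [← sum_div, div_div, mul_comm]

lemma av_fst [Nonempty β] (f : α → ℝ) : av (fun x : α × β => f x.1) = av f := by
  rw [av_prod]
  exact av_congr fun a => av_const (α := β) (f a)

lemma av_pos_of_nonempty [Nonempty α] {f : α → ℝ} (h : ∀ x, 0 < f x) : 0 < av f := by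
  unfold av
  apply div_pos
  · exact sum_pos (fun x _ => h x) univ_nonempty
  · exact_mod_cast Fintype.card_pos

/-- Averages over a product of spaces of a product of functions. -/
lemma av_pi {m : Type*} [Fintype m] [DecidableEq m] (φ : m → α → ℝ) :
    av (fun h : m → α => ∏ t, φ t (h t)) = ∏ t, av (φ t) := by
  unfold av
  rw [prod_div_distrib, Finset.prod_univ_sum, Fintype.piFinset_univ, Fintype.card_pi]
  congr 1
  rw [Nat.cast_prod]

/-- The average of a function of the coordinates in an injective image. -/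
lemma av_comp_inj {ι κ X : Type*} [Fintype ι] [Fintype κ] [Fintype X] [DecidableEq ι]
    [DecidableEq κ] [Nonempty X] (e : ι → κ) (he : Function.Injective e) (F : (ι → X) → ℝ) :
    av (fun s : κ → X => F (fun i => s (e i))) = av F := by
  classical
  let E1 : ι ⊕ ↥(Set.range e)ᶜ ≃ κ :=
    (Equiv.sumCongr (Equiv.ofInjective e he) (Equiv.refl _)).trans (Equiv.Set.sumCompl (Set.range e))
  let E2 : (ι → X) × (↥(Set.range e)ᶜ → X) ≃ (κ → X) :=
    (Equiv.sumArrowEquivProdArrow ι (↥(Set.range e)ᶜ) X).symm.trans (E1.arrowCongr (Equiv.refl X))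
  rw [← av_equiv E2]
  have h : ∀ z : (ι → X) × (↥(Set.range e)ᶜ → X), (fun i => E2 z (e i)) = z.1 := by
    intro z
    funext i
    have h1 : E1.symm (e i) = Sum.inl i := by
      rw [Equiv.symm_apply_eq]
      rfl
    show (Equiv.sumArrowEquivProdArrow ι (↥(Set.range e)ᶜ) X).symm z (E1.symm (e i)) = z.1 i
    rw [h1]
    rfl
  simp only [h]
  exact av_fst F

/-- Chebyshev. -/
lemma av_cheb (X : α → ℝ) (μ c : ℝ) (hc : c < μ) :
    av (fun x => if X x < c then (1 : ℝ) else 0) ≤ av (fun x => (X x - μ) ^ 2) / (μ - c) ^ 2 := by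
  have hpos : 0 < (μ - c) ^ 2 := by
    have : 0 < μ - c := by linarith
    positivity
  rw [le_div_iff₀ hpos, ← av_mul_right]
  refine av_mono fun x => ?_
  split_ifs with h
  · rw [one_mul]
    nlinarith
  · rw [zero_mul]
    positivity

end

end Pool.Agent.Y975.SS
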