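import Mathlib
import Pool.Agent.Y975.SS.Av

/-!
# Balls into boxes: boxes hit by each of `m` batches of `N` balls
-/

set_option autoImplicit false

open Finset

namespace Pool.Agent.Y975.SS

/-- indicator that the box `u` is missed -/
noncomputable def miss {N b : ℕ} (u : Fin b) (f : Fin N → Fin b) : ℝ :=
  ∏ i, if f i = u then (0 : ℝ) else 1

/-- indicator that the box `u` is hit -/
noncomputable def hit {N b : ℕ} (u : Fin b) (f : Fin N → Fin b) : ℝ := 1 - miss u f

lemma miss_eq {N b : ℕ} (u : Fin b) (f : Fin N → Fin b) :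
    miss u f = if ∃ i, f i = u then 0 else 1 := by
  unfold miss
  split_ifs with h
  · obtain ⟨i, hi⟩ := h
    exact prod_eq_zero (mem_univ i) (by rw [if_pos hi])
  · push Not at h
    exact prod_eq_one fun i _ => by rw [if_neg (h i)]

lemma hit_eq {N b : ℕ} (u : Fin b) (f : Fin N → Fin b) :
    hit u f = if ∃ i, f i = u then 1 else 0 := by
  unfold hit
  rw [miss_eq]
  split_ifs <;> norm_num

lemma hit_nonneg {N b : ℕ} (u : Fin b) (f : Fin N → Fin b) : 0 ≤ hit u f := by
  rw [hit_eq]; split_ifs <;> norm_num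

/-- the miss probability -/
noncomputable def qq (N b : ℕ) : ℝ := (((b : ℝ) - 1) / b) ^ N

lemma av_miss {N b : ℕ} (u : Fin b) : av (fun f : Fin N → Fin b => miss u f) = qq N b := by
  unfold miss
  rw [av_pi (fun (_ : Fin N) (y : Fin b) => if y = u then (0 : ℝ) else 1)]
  rw [prod_const, card_univ, Fintype.card_fin]
  unfold qq
  congr 1
  unfold av
  rw [Fintype.card_fin]
  congr 1
  have h : ∀ y : Fin b, (if y = u then (0 : ℝ) else 1) = 1 - (if y = u then (1 : ℝ) else 0) := by
    intro y; split_ifs <;> norm_num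
  simp only [h, sum_sub_distrib, sum_const, card_univ, Fintype.card_fin, nsmul_eq_mul, mul_one,
    sum_ite_eq', mem_univ, if_true]

lemma qq_nonneg (N b : ℕ) (hb : 1 ≤ b) : 0 ≤ qq N b := by
  unfold qq
  have : (1 : ℝ) ≤ b := by exact_mod_cast hb
  apply pow_nonneg
  apply div_nonneg <;> linarith

lemma qq_le_one (N b : ℕ) (hb : 1 ≤ b) : qq N b ≤ 1 := by
  unfold qq
  have : (1 : ℝ) ≤ b := by exact_mod_cast hb
  apply pow_le_one₀
  · apply div_nonneg <;> linarith
  · rw [div_le_one (by linarith)]; linarith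

lemma qq_le_exp (N b : ℕ) (hb : 1 ≤ b) : qq N b ≤ Real.exp (-((N : ℝ) / b)) := by
  unfold qq
  have hb' : (1 : ℝ) ≤ b := by exact_mod_cast hb
  have h1 : ((b : ℝ) - 1) / b ≤ Real.exp (-(1 / b)) := by
    have := Real.add_one_le_exp (-(1 / (b : ℝ)))
    have e : ((b : ℝ) - 1) / b = -(1 / (b : ℝ)) + 1 := by field_simp; ring
    rw [e]; exact this
  calc (((b : ℝ) - 1) / b) ^ N ≤ (Real.exp (-(1 / b))) ^ N := by
        apply pow_le_pow_left₀ _ h1
        apply div_nonneg <;> linarith
    _ = Real.exp (-((N : ℝ) / b)) := by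
        rw [← Real.exp_nat_mul]
        congr 1
        ring

lemma av_miss_miss {N b : ℕ} (u v : Fin b) (huv : u ≠ v) :
    av (fun f : Fin N → Fin b => miss u f * miss v f) ≤ qq N b ^ 2 := by
  have h0 : ∀ f : Fin N → Fin b, miss u f * miss v f =
      ∏ i, (if f i = u then (0 : ℝ) else 1) * (if f i = v then (0 : ℝ) else 1) := by
    intro f
    unfold miss
    rw [prod_mul_distrib]
  simp only [h0]
  rw [av_pi (fun (_ : Fin N) (y : Fin b) =>
    (if y = u then (0 : ℝ) else 1) * (if y = v then (0 : ℝ) else 1))]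
  rw [prod_const, card_univ, Fintype.card_fin]
  unfold qq
  rw [← pow_mul, mul_comm N 2, pow_mul]
  have hb2 : 2 ≤ b := by
    by_contra h
    have hu := u.2
    have hv := v.2
    apply huv
    apply Fin.ext
    omega
  have hb : (2 : ℝ) ≤ b := by exact_mod_cast hb2
  have e : av (fun y : Fin b => (if y = u then (0 : ℝ) else 1) * (if y = v then (0 : ℝ) else 1)) =
      ((b : ℝ) - 2) / b := by
    unfold av
    rw [Fintype.card_fin]
    congr 1
    have h : ∀ y : Fin b, (if y = u then (0 : ℝ) else 1) * (if y = v then (0 : ℝ) else 1) =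
        1 - (if y = u then (1 : ℝ) else 0) - (if y = v then (1 : ℝ) else 0) := by
      intro y
      by_cases h1 : y = u
      · by_cases h2 : y = v
        · exact absurd (h1.symm.trans h2) huv
        · rw [if_pos h1, if_neg h2, if_pos h1, if_neg h2]; norm_num
      · by_cases h2 : y = v
        · rw [if_neg h1, if_pos h2, if_neg h1, if_pos h2]; norm_num
        · rw [if_neg h1, if_neg h2, if_neg h1, if_neg h2]; norm_num
    simp only [h, sum_sub_distrib, sum_const, card_univ, Fintype.card_fin, nsmul_eq_mul, mul_one,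
      sum_ite_eq', mem_univ, if_true]
    ring
  rw [e]
  apply pow_le_pow_left₀
  · apply div_nonneg <;> linarith
  · rw [div_pow, div_le_div_iff₀ (by linarith) (by positivity)]
    nlinarith

lemma av_hit {N b : ℕ} (u : Fin b) : av (fun f : Fin N → Fin b => hit u f) = 1 - qq N b := by
  have : Nonempty (Fin b) := ⟨u⟩
  unfold hit
  rw [av_sub, av_const, av_miss]

lemma av_hit_hit {N b : ℕ} (u v : Fin b) (huv : u ≠ v) :
    av (fun f : Fin N → Fin b => hit u f * hit v f) ≤ (1 - qq N b) ^ 2 := by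
  have : Nonempty (Fin b) := ⟨u⟩
  have h : ∀ f : Fin N → Fin b, hit u f * hit v f = (1 - miss u f) - miss v f + miss u f * miss v f := by
    intro f; unfold hit; ring
  simp only [h]
  rw [av_add, av_sub, av_sub, av_const, av_miss, av_miss]
  have := av_miss_miss (N := N) u v huv
  nlinarith

/-- number of boxes hit by all batches -/
noncomputable def cnt {m N b : ℕ} (h : Fin m → Fin N → Fin b) : ℝ :=
  ∑ u : Fin b, ∏ t, hit u (h t)

lemma av_cnt {m N b : ℕ} : av (fun h : Fin m → Fin N → Fin b => cnt h) = b * (1 - qq N b) ^ m := by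
  unfold cnt
  rw [av_sum]
  have : ∀ u : Fin b, av (fun h : Fin m → Fin N → Fin b => ∏ t, hit u (h t)) = (1 - qq N b) ^ m := by
    intro u
    rw [av_pi (fun (_ : Fin m) (f : Fin N → Fin b) => hit u f), prod_const, card_univ,
      Fintype.card_fin, av_hit]
  simp only [this, sum_const, card_univ, Fintype.card_fin, nsmul_eq_mul]

lemma av_cnt_sq {m N b : ℕ} (hb : 1 ≤ b) : av (fun h : Fin m → Fin N → Fin b => cnt h ^ 2) ≤
    b ^ 2 * (1 - qq N b) ^ (2 * m) + b * ((1 - qq N b) ^ m - (1 - qq N b) ^ (2 * m)) := by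
  have h0 : ∀ h : Fin m → Fin N → Fin b, cnt h ^ 2 =
      ∑ u : Fin b, ∑ v : Fin b, ∏ t, (hit u (h t) * hit v (h t)) := by
    intro h
    unfold cnt
    rw [sq, sum_mul_sum]
    refine sum_congr rfl fun u _ => sum_congr rfl fun v _ => ?_
    rw [prod_mul_distrib]
  simp only [h0]
  rw [av_sum]
  have h1 : ∀ u : Fin b, av (fun h : Fin m → Fin N → Fin b =>
      ∑ v : Fin b, ∏ t, (hit u (h t) * hit v (h t))) ≤
      ∑ v : Fin b, ((1 - qq N b) ^ (2 * m) +
        (if v = u then ((1 - qq N b) ^ m - (1 - qq N b) ^ (2 * m)) else 0)) := by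
    intro u
    rw [av_sum]
    refine sum_le_sum fun v _ => ?_
    rw [av_pi (fun (_ : Fin m) (f : Fin N → Fin b) => hit u f * hit v f), prod_const, card_univ,
      Fintype.card_fin]
    split_ifs with huv
    · subst huv
      have h2 : ∀ f : Fin N → Fin b, hit v f * hit v f = hit v f := by
        intro f; rw [hit_eq]; split_ifs <;> norm_num
      simp only [h2]
      rw [av_hit]
      linarith
    · rw [add_zero, pow_mul]
      apply pow_le_pow_left₀
      · exact av_nonneg fun f => mul_nonneg (hit_nonneg _ _) (hit_nonneg _ _)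
      · exact av_hit_hit u v (Ne.symm huv)
  refine (sum_le_sum fun u _ => h1 u).trans (le_of_eq ?_)
  simp only [sum_add_distrib, sum_const, card_univ, Fintype.card_fin, nsmul_eq_mul,
    sum_ite_eq', mem_univ, if_true]
  ring

/-- With high probability a positive proportion of all boxes is hit by all batches. -/
theorem block_bad {m N b : ℕ} (hb : 1 ≤ b) (hN : 1 ≤ N) (p : ℝ) (hp : 0 < p)
    (hpq : qq N b ≤ 1 - p) :
    av (fun h : Fin m → Fin N → Fin b => if cnt h < b * p ^ m / 2 then (1 : ℝ) else 0) ≤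
      4 * m / (N * p ^ (2 * m)) := by
  have : Nonempty (Fin b) := ⟨⟨0, hb⟩⟩
  have hb' : (1 : ℝ) ≤ b := by exact_mod_cast hb
  have hN' : (1 : ℝ) ≤ N := by exact_mod_cast hN
  set q := qq N b with hq
  have hq0 : 0 ≤ q := qq_nonneg N b hb
  have hp1 : p ≤ 1 - q := by linarith
  have hpm : p ^ m ≤ (1 - q) ^ m := pow_le_pow_left₀ hp.le hp1 m
  have hppos : 0 < p ^ m := by positivity
  set μ : ℝ := b * (1 - q) ^ m with hμ
  have hμ1 : b * p ^ m ≤ μ := mul_le_mul_of_nonneg_left hpm (by linarith)
  have hc : b * p ^ m / 2 < μ := by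
    have : 0 < b * p ^ m := by positivity
    linarith
  refine (av_cheb (fun h : Fin m → Fin N → Fin b => cnt h) μ _ hc).trans ?_
  -- variance
  have hvar : av (fun h : Fin m → Fin N → Fin b => (cnt h - μ) ^ 2) ≤ b * (m * q) := by
    have h0 : ∀ h : Fin m → Fin N → Fin b, (cnt h - μ) ^ 2 =
        (cnt h ^ 2 + (-(2 * μ)) * cnt h) + μ ^ 2 := by
      intro h; ring
    simp only [h0]
    rw [av_add, av_add, av_mul_left, av_cnt, av_const]
    have h1 := av_cnt_sq (m := m) (N := N) hb
    rw [← hq] at h1 ⊢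
    have h2 : (1 - q) ^ (2 * m) = ((1 - q) ^ m) ^ 2 := by rw [← pow_mul, mul_comm]
    rw [h2] at h1
    set P := (1 - q) ^ m with hP
    have hP1 : P ≤ 1 := by
      apply pow_le_one₀
      · linarith [qq_le_one N b hb]
      · linarith
    have hP0 : 0 ≤ P := hppos.le.trans hpm
    have hbern : 1 - m * q ≤ P := by
      have := one_add_mul_le_pow (a := -q) (by linarith [qq_le_one N b hb]) m
      have e : (1 : ℝ) + -q = 1 - q := by ring
      rw [e] at this
      linarith
    have h3 : P - P ^ 2 ≤ m * q := by nlinarith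
    have h4 : (b : ℝ) * (P - P ^ 2) ≤ b * (m * q) := mul_le_mul_of_nonneg_left h3 (by linarith)
    have h5 : (b : ℝ) ^ 2 * P ^ 2 + b * (P - P ^ 2) + -(2 * μ) * (b * P) + μ ^ 2 = b * (P - P ^ 2) := by
      rw [hμ]; ring
    linarith
  have hden : (b * p ^ m / 2) ^ 2 ≤ (μ - b * p ^ m / 2) ^ 2 := by
    apply pow_le_pow_left₀ (by positivity)
    linarith
  have hden0 : 0 < (b * p ^ m / 2) ^ 2 := by positivity
  have hbq : (N : ℝ) * q ≤ b := by
    have h1 := qq_le_exp N b hb
    rw [← hq] at h1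
    set x : ℝ := (N : ℝ) / b with hx
    have hx0 : 0 ≤ x := by positivity
    have h2 : x * Real.exp (-x) ≤ 1 := by
      have h3 : x + 1 ≤ Real.exp x := Real.add_one_le_exp x
      have h4 : Real.exp x * Real.exp (-x) = 1 := by rw [← Real.exp_add]; simp
      have h5 : 0 < Real.exp (-x) := Real.exp_pos _
      nlinarith
    have h6 : (N : ℝ) = x * b := by rw [hx]; field_simp
    calc (N : ℝ) * q ≤ N * Real.exp (-x) := mul_le_mul_of_nonneg_left h1 (by linarith)
      _ = (x * Real.exp (-x)) * b := by rw [h6]; ring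
      _ ≤ 1 * b := mul_le_mul_of_nonneg_right h2 (by linarith)
      _ = b := one_mul _
  calc av (fun h : Fin m → Fin N → Fin b => (cnt h - μ) ^ 2) / (μ - b * p ^ m / 2) ^ 2
      ≤ (b * (m * q)) / (b * p ^ m / 2) ^ 2 := by
        apply div_le_div₀ _ hvar hden0 hden
        positivity
    _ ≤ 4 * m / (N * p ^ (2 * m)) := by
        rw [div_le_div_iff₀ hden0 (by positivity)]
        have e : p ^ (2 * m) = (p ^ m) ^ 2 := by rw [← pow_mul, mul_comm]
        rw [e]
        have h7 : (b : ℝ) * (m * q) * (N * (p ^ m) ^ 2) = (N * q) * (b * m * (p ^ m) ^ 2) := by ring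
        have h8 : 4 * (m : ℝ) * (b * p ^ m / 2) ^ 2 = b * (b * m * (p ^ m) ^ 2) := by ring
        rw [h7, h8]
        apply mul_le_mul_of_nonneg_right hbq
        positivity

end Pool.Agent.Y975.SS
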