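import Mathlib
import Pool.Agent.Y975.SS.Hit

/-!
# Existence of the tree gadget with high probability
-/

set_option autoImplicit false

open Finset

namespace Pool.Agent.Y975.SS

/-- A root row `ρ` and, for every block `j`, `m` further rows which fall in block `j` into the same
box as the root; all these rows are different and their indices are less than `r`. -/
def Gadget {n ζ b : ℕ} (r m : ℕ) (s : Fin n × Fin ζ → Fin b) : Prop :=
  ∃ (ρ : Fin n) (c : Fin ζ × Fin m → Fin n), Function.Injective c ∧ (∀ x, c x ≠ ρ) ∧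
    (ρ : ℕ) < r ∧ (∀ x, (c x : ℕ) < r) ∧ ∀ x : Fin ζ × Fin m, s (c x, x.1) = s (ρ, x.1)

/-- all root candidates fail -/
noncomputable def bad {N ζ m b : ℕ} (g : Fin N → Fin ζ → Fin b)
    (H : Fin ζ → Fin m → Fin N → Fin b) : ℝ :=
  ∏ ρ : Fin N, (1 - ∏ j, ∏ t, hit (g ρ j) (H j t))

lemma prod_hit {N ζ m b : ℕ} (g : Fin ζ → Fin b) (H : Fin ζ → Fin m → Fin N → Fin b) :
    ∏ j, ∏ t, hit (g j) (H j t) = if ∀ j t, ∃ i, H j t i = g j then 1 else 0 := by
  split_ifs with h
  · refine prod_eq_one fun j _ => prod_eq_one fun t _ => ?_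
    rw [hit_eq, if_pos (h j t)]
  · push Not at h
    obtain ⟨j, t, h⟩ := h
    refine prod_eq_zero (mem_univ j) (prod_eq_zero (mem_univ t) ?_)
    rw [hit_eq, if_neg]
    push Not
    exact h

lemma bad_of_good {N ζ m b : ℕ} (g : Fin N → Fin ζ → Fin b)
    (H : Fin ζ → Fin m → Fin N → Fin b) (h : ¬ ∃ ρ, ∀ j t, ∃ i, H j t i = g ρ j) :
    bad g H = 1 := by
  unfold bad
  refine prod_eq_one fun ρ _ => ?_
  rw [prod_hit, if_neg]
  · norm_num
  · intro h2
    exact h ⟨ρ, h2⟩

lemma bad_nonneg {N ζ m b : ℕ} (g : Fin N → Fin ζ → Fin b)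
    (H : Fin ζ → Fin m → Fin N → Fin b) : 0 ≤ bad g H := by
  unfold bad
  refine prod_nonneg fun ρ _ => ?_
  rw [prod_hit]
  split_ifs <;> norm_num

lemma av_single {ζ : ℕ} {X : Type*} [Fintype X] [Nonempty X] (j : Fin ζ) (F : X → ℝ) :
    av (fun H : Fin ζ → X => F (H j)) = av F := by
  have h := av_comp_inj (ι := Unit) (κ := Fin ζ) (X := X) (fun _ => j)
    (fun _ _ _ => rfl) (fun z => F (z ()))
  have h2 : av (fun z : Unit → X => F (z ())) = av F := av_equiv (Equiv.funUnique Unit X) F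
  rw [h2] at h
  exact h

lemma av_bad_g {N ζ m b : ℕ} (hb : 1 ≤ b) (H : Fin ζ → Fin m → Fin N → Fin b) :
    av (fun g : Fin N → Fin ζ → Fin b => bad g H) = (1 - ∏ j, (cnt (H j) / b)) ^ N := by
  have : Nonempty (Fin b) := ⟨⟨0, hb⟩⟩
  unfold bad
  rw [av_pi (fun (_ : Fin N) (y : Fin ζ → Fin b) => 1 - ∏ j, ∏ t, hit (y j) (H j t)), prod_const,
    card_univ, Fintype.card_fin, av_sub, av_const]
  congr 2
  rw [av_pi (fun (j : Fin ζ) (u : Fin b) => ∏ t, hit u (H j t))]
  refine prod_congr rfl fun j _ => ?_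
  unfold av cnt
  rw [Fintype.card_fin]

lemma cnt_nonneg {m N b : ℕ} (h : Fin m → Fin N → Fin b) : 0 ≤ cnt h :=
  sum_nonneg fun _ _ => prod_nonneg fun _ _ => hit_nonneg _ _

lemma cnt_le {m N b : ℕ} (h : Fin m → Fin N → Fin b) : cnt h ≤ b := by
  unfold cnt
  calc ∑ u : Fin b, ∏ t, hit u (h t) ≤ ∑ u : Fin b, (1 : ℝ) := by
        refine sum_le_sum fun _ _ => prod_le_one (fun _ _ => hit_nonneg _ _) fun _ _ => ?_
        rw [hit_eq]; split_ifs <;> norm_num
    _ = b := by simp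

theorem av_bad {N ζ m b : ℕ} (hb : 1 ≤ b) (hN : 1 ≤ N) (p : ℝ) (hp : 0 < p) (hp1 : p ≤ 1)
    (hpq : qq N b ≤ 1 - p) :
    av (fun z : (Fin N → Fin ζ → Fin b) × (Fin ζ → Fin m → Fin N → Fin b) => bad z.1 z.2) ≤
      (1 - (p ^ m / 2) ^ ζ) ^ N + ζ * (4 * m / (N * p ^ (2 * m))) := by
  have : Nonempty (Fin b) := ⟨⟨0, hb⟩⟩
  have hb' : (1 : ℝ) ≤ b := by exact_mod_cast hb
  have hpm1 : p ^ m ≤ 1 := pow_le_one₀ hp.le hp1
  have hpm0 : 0 < p ^ m := by positivity
  rw [← av_equiv (Equiv.prodComm _ _), av_prod]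
  have h1 : ∀ H : Fin ζ → Fin m → Fin N → Fin b,
      av (fun g : Fin N → Fin ζ → Fin b => bad g H) ≤
        (1 - (p ^ m / 2) ^ ζ) ^ N + ∑ j, (if cnt (H j) < b * p ^ m / 2 then (1 : ℝ) else 0) := by
    intro H
    rw [av_bad_g hb]
    have hnn : ∀ j, 0 ≤ cnt (H j) / b := fun j => div_nonneg (cnt_nonneg _) (by linarith)
    have hle : ∀ j, cnt (H j) / b ≤ 1 := fun j => by
      rw [div_le_one (by linarith)]; exact cnt_le _
    have hprod0 : 0 ≤ ∏ j, (cnt (H j) / b) := prod_nonneg fun j _ => hnn j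
    have hprod1 : ∏ j, (cnt (H j) / b) ≤ 1 := prod_le_one (fun j _ => hnn j) fun j _ => hle j
    have hbase : 0 ≤ 1 - (p ^ m / 2) ^ ζ := by
      have : (p ^ m / 2) ^ ζ ≤ 1 := pow_le_one₀ (by positivity) (by linarith)
      linarith
    by_cases hall : ∀ j, b * p ^ m / 2 ≤ cnt (H j)
    · have h2 : (p ^ m / 2) ^ ζ ≤ ∏ j, (cnt (H j) / b) := by
        have : (p ^ m / 2) ^ ζ = ∏ _j : Fin ζ, (p ^ m / 2) := by
          rw [prod_const, card_univ, Fintype.card_fin]
        rw [this]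
        refine prod_le_prod (fun j _ => by positivity) fun j _ => ?_
        rw [le_div_iff₀ (by linarith)]
        have := hall j
        linarith
      have h3 : 0 ≤ ∑ j, (if cnt (H j) < b * p ^ m / 2 then (1 : ℝ) else 0) :=
        sum_nonneg fun j _ => by split_ifs <;> norm_num
      have h4 : (1 - ∏ j, (cnt (H j) / b)) ^ N ≤ (1 - (p ^ m / 2) ^ ζ) ^ N :=
        pow_le_pow_left₀ (by linarith) (by linarith) N
      linarith
    · push Not at hall
      obtain ⟨j, hj⟩ := hall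
      have h3 : (1 : ℝ) ≤ ∑ j, (if cnt (H j) < b * p ^ m / 2 then (1 : ℝ) else 0) := by
        have := single_le_sum (f := fun j => if cnt (H j) < b * p ^ m / 2 then (1 : ℝ) else 0)
          (fun j _ => by split_ifs <;> norm_num) (mem_univ j)
        simp only [if_pos hj] at this
        exact this
      have h4 : (1 - ∏ j, (cnt (H j) / b)) ^ N ≤ 1 := pow_le_one₀ (by linarith) (by linarith)
      have h5 : 0 ≤ (1 - (p ^ m / 2) ^ ζ) ^ N := pow_nonneg hbase N
      linarith
  refine (av_mono h1).trans ?_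
  rw [av_add, av_const, av_sum]
  have h2 : ∀ j : Fin ζ, av (fun H : Fin ζ → Fin m → Fin N → Fin b =>
      if cnt (H j) < b * p ^ m / 2 then (1 : ℝ) else 0) ≤ 4 * m / (N * p ^ (2 * m)) := by
    intro j
    rw [av_single j (fun h : Fin m → Fin N → Fin b => if cnt h < b * p ^ m / 2 then (1 : ℝ) else 0)]
    exact block_bad hb hN p hp hpq
  have h3 := sum_le_sum (s := (univ : Finset (Fin ζ))) fun j _ => h2 j
  rw [sum_const, card_univ, Fintype.card_fin, nsmul_eq_mul] at h3
  linarith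

/-- index set of the relevant coordinates -/
abbrev Idx (N ζ m : ℕ) : Type := (Fin N × Fin ζ) ⊕ (Fin ζ × (Fin m × Fin N))

/-- The gadget exists with high probability. -/
theorem gadget_bad {n r N ζ m b : ℕ} (hb : 1 ≤ b) (hN : 1 ≤ N) (hNr : (ζ * m + 1) * N ≤ r)
    (hr : r ≤ n) (p : ℝ) (hp : 0 < p) (hp1 : p ≤ 1) (hpq : qq N b ≤ 1 - p) :
    av (fun s : Fin n × Fin ζ → Fin b => open Classical in if Gadget r m s then (0 : ℝ) else 1) ≤
      (1 - (p ^ m / 2) ^ ζ) ^ N + ζ * (4 * m / (N * p ^ (2 * m))) := by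
  classical
  have : Nonempty (Fin b) := ⟨⟨0, hb⟩⟩
  -- rows
  obtain ⟨R, hRinj, hRr⟩ : ∃ R : Option (Fin ζ × Fin m) × Fin N → Fin n,
      Function.Injective R ∧ ∀ x, (R x : ℕ) < r := by
    have hcard : Fintype.card (Option (Fin ζ × Fin m) × Fin N) ≤ Fintype.card (Fin r) := by
      rw [Fintype.card_prod, Fintype.card_option, Fintype.card_prod, Fintype.card_fin,
        Fintype.card_fin, Fintype.card_fin, Fintype.card_fin]
      exact hNr
    obtain ⟨R⟩ := Function.Embedding.nonempty_of_card_le hcard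
    refine ⟨fun x => Fin.castLE hr (R x), ?_, fun x => ?_⟩
    · intro x y h
      exact R.injective (Fin.castLE_injective hr h)
    · simp
  let e : Idx N ζ m → Fin n × Fin ζ := fun x => match x with
    | Sum.inl y => (R (none, y.1), y.2)
    | Sum.inr y => (R (some (y.1, y.2.1), y.2.2), y.1)
  have he : Function.Injective e := by
    rintro (⟨ρ, j⟩ | ⟨j, t, i⟩) (⟨ρ', j'⟩ | ⟨j', t', i'⟩) h
    · have h1 := congrArg Prod.fst h
      have h2 : j = j' := congrArg Prod.snd h
      have h3 := hRinj h1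
      rw [Prod.mk.injEq] at h3
      have h5 : ρ = ρ' := h3.2
      rw [h2, h5]
    · have h1 := congrArg Prod.fst h
      have h3 := hRinj h1
      rw [Prod.mk.injEq] at h3
      exact absurd h3.1 (by simp)
    · have h1 := congrArg Prod.fst h
      have h3 := hRinj h1
      rw [Prod.mk.injEq] at h3
      exact absurd h3.1 (by simp)
    · have h1 := congrArg Prod.fst h
      have h3 := hRinj h1
      rw [Prod.mk.injEq] at h3
      have h4 := Option.some_injective _ h3.1
      rw [Prod.mk.injEq] at h4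
      have h5 : j = j' := h4.1
      have h6 : t = t' := h4.2
      have h7 : i = i' := h3.2
      rw [h5, h6, h7]
  -- unfold the product structure
  let F : (Idx N ζ m → Fin b) → ℝ := fun z =>
    bad (fun ρ j => z (Sum.inl (ρ, j))) (fun j t i => z (Sum.inr (j, (t, i))))
  have hF : av F ≤ (1 - (p ^ m / 2) ^ ζ) ^ N + ζ * (4 * m / (N * p ^ (2 * m))) := by
    let E : (Idx N ζ m → Fin b) ≃ (Fin N → Fin ζ → Fin b) × (Fin ζ → Fin m → Fin N → Fin b) :=
      (Equiv.sumArrowEquivProdArrow (Fin N × Fin ζ) (Fin ζ × (Fin m × Fin N)) (Fin b)).trans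
        (Equiv.prodCongr (Equiv.curry (Fin N) (Fin ζ) (Fin b))
          ((Equiv.curry (Fin ζ) (Fin m × Fin N) (Fin b)).trans
            (Equiv.arrowCongr (Equiv.refl _) (Equiv.curry (Fin m) (Fin N) (Fin b)))))
    have h1 := av_equiv E (fun z => bad z.1 z.2)
    have h2 : (fun x => bad (E x).1 (E x).2) = F := rfl
    rw [h2] at h1
    rw [h1]
    exact av_bad hb hN p hp hp1 hpq
  rw [← av_comp_inj e he F] at hF
  refine le_trans (av_mono fun s => ?_) hF
  split_ifs with hG
  · exact bad_nonneg _ _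
  · refine le_of_eq (Eq.symm (bad_of_good _ _ ?_))
    rintro ⟨ρ, h⟩
    apply hG
    choose i hi using h
    refine ⟨R (none, ρ), fun x => R (some x, i x.1 x.2), ?_, ?_, hRr _, fun x => hRr _, ?_⟩
    · intro x y hxy
      have h3 := hRinj hxy
      rw [Prod.mk.injEq] at h3
      exact Option.some_injective _ h3.1
    · intro x hx
      have h3 := hRinj hx
      rw [Prod.mk.injEq] at h3
      exact absurd h3.1 (by simp)
    · intro x
      exact hi x.1 x.2

end Pool.Agent.Y975.SS
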