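import Mathlib
import Pool.Agent.Y975.SS.Exist

/-!
# Averaging over the signs: the test vector of a gadget
-/

set_option autoImplicit false

open Finset

namespace Pool.Agent.Y975.SS

/-- sign of a bit -/
noncomputable def sgn (x : Bool) : ℝ := if x then 1 else -1

lemma sgn_mul_self (x : Bool) : sgn x * sgn x = 1 := by cases x <;> simp [sgn]

lemma sgn_not (x : Bool) : sgn (!x) = -sgn x := by cases x <;> simp [sgn]

/-- An odd function of one bit has average zero. -/
lemma av_flip {K : Type*} [Fintype K] [DecidableEq K] (k : K) (F : (K → Bool) → ℝ)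
    (h : ∀ σ, F (Function.update σ k (!σ k)) = -F σ) : av F = 0 := by
  let E : (K → Bool) ≃ (K → Bool) := Function.Involutive.toPerm
    (fun σ => Function.update σ k (!σ k)) (by
      intro σ
      funext i
      by_cases hi : i = k
      · subst hi; simp
      · simp [Function.update_of_ne hi])
  have h1 := av_equiv E F
  have h2 : (fun σ => F (E σ)) = fun σ => (-1) * F σ := by
    funext σ
    have : F (E σ) = -F σ := h σ
    rw [this]; ring
  rw [h2, av_mul_left] at h1
  linarith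

variable {n ζ b m : ℕ}

/-- the sign pattern of the child `y` seen from block `k` -/
noncomputable def tau (ρ : Fin n) (c : Fin ζ × Fin m → Fin n) (k : Fin ζ) (y : Fin ζ × Fin m)
    (σ : Fin n × Fin ζ → Bool) : ℝ :=
  sgn (σ (c y, k)) * (sgn (σ (ρ, y.1)) * sgn (σ (c y, y.1)))

lemma tau_sq (ρ : Fin n) (c : Fin ζ × Fin m → Fin n) (k : Fin ζ) (y : Fin ζ × Fin m)
    (σ : Fin n × Fin ζ → Bool) : tau ρ c k y σ * tau ρ c k y σ = 1 := by
  unfold tau
  have h1 := sgn_mul_self (σ (c y, k))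
  have h2 := sgn_mul_self (σ (ρ, y.1))
  have h3 := sgn_mul_self (σ (c y, y.1))
  calc _ = (sgn (σ (c y, k)) * sgn (σ (c y, k))) * ((sgn (σ (ρ, y.1)) * sgn (σ (ρ, y.1))) *
        (sgn (σ (c y, y.1)) * sgn (σ (c y, y.1)))) := by ring
    _ = 1 := by rw [h1, h2, h3]; norm_num

lemma tau_diag (ρ : Fin n) (c : Fin ζ × Fin m → Fin n) (y : Fin ζ × Fin m)
    (σ : Fin n × Fin ζ → Bool) : tau ρ c y.1 y σ = sgn (σ (ρ, y.1)) := by
  unfold tau
  have h3 := sgn_mul_self (σ (c y, y.1))
  calc _ = sgn (σ (ρ, y.1)) * (sgn (σ (c y, y.1)) * sgn (σ (c y, y.1))) := by ring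
    _ = _ := by rw [h3, mul_one]

lemma av_tau (ρ : Fin n) (c : Fin ζ × Fin m → Fin n) (hc : Function.Injective c)
    (hρ : ∀ x, c x ≠ ρ) (k : Fin ζ) (y y' : Fin ζ × Fin m) (hy : y.1 ≠ k) (hyy : y ≠ y') :
    av (fun σ => tau ρ c k y σ * tau ρ c k y' σ) = 0 := by
  refine av_flip (c y, k) _ fun σ => ?_
  have hcy : c y ≠ c y' := fun h => hyy (hc h)
  have e1 : ∀ (i : Fin n) (j : Fin ζ), (i, j) ≠ (c y, k) →
      Function.update σ (c y, k) (!σ (c y, k)) (i, j) = σ (i, j) := by
    intro i j hij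
    exact Function.update_of_ne hij _ _
  have e2 : Function.update σ (c y, k) (!σ (c y, k)) (c y, k) = !σ (c y, k) :=
    Function.update_self _ _ _
  have n1 : (ρ, y.1) ≠ (c y, k) := fun h => hρ y (congrArg Prod.fst h).symm
  have n2 : (c y, y.1) ≠ (c y, k) := fun h => hy (congrArg Prod.snd h)
  have n3 : (c y', k) ≠ (c y, k) := fun h => hcy (congrArg Prod.fst h).symm
  have n4 : (ρ, y'.1) ≠ (c y, k) := fun h => hρ y (congrArg Prod.fst h).symm
  have n5 : (c y', y'.1) ≠ (c y, k) := fun h => hcy (congrArg Prod.fst h).symm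
  unfold tau
  rw [e2, e1 _ _ n1, e1 _ _ n2, e1 _ _ n3, e1 _ _ n4, e1 _ _ n5, sgn_not]
  ring

/-- the test vector -/
noncomputable def tv (ρ : Fin n) (c : Fin ζ × Fin m → Fin n) (σ : Fin n × Fin ζ → Bool)
    (i : Fin n) : ℝ :=
  (if i = ρ then (1 : ℝ) else 0) -
    ∑ y, if i = c y then (sgn (σ (ρ, y.1)) * sgn (σ (c y, y.1))) / m else 0

/-- coordinate `(k, t)` of `√ζ Ωᵀ x` -/
noncomputable def img (s : Fin n × Fin ζ → Fin b) (σ : Fin n × Fin ζ → Bool) (x : Fin n → ℝ)
    (k : Fin ζ) (t : Fin b) : ℝ :=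
  ∑ i, (if s (i, k) = t then sgn (σ (i, k)) else 0) * x i

lemma img_tv (hm : 1 ≤ m) (s : Fin n × Fin ζ → Fin b) (ρ : Fin n) (c : Fin ζ × Fin m → Fin n)
    (hs : ∀ x : Fin ζ × Fin m, s (c x, x.1) = s (ρ, x.1)) (σ : Fin n × Fin ζ → Bool)
    (k : Fin ζ) (t : Fin b) :
    img s σ (tv ρ c σ) k t =
      -∑ y, if y.1 ≠ k then (if s (c y, k) = t then tau ρ c k y σ / m else 0) else 0 := by
  have hm0 : (m : ℝ) ≠ 0 := by
    have : 0 < m := hm
    exact_mod_cast this.ne'
  unfold img tv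
  simp only [mul_sub, sum_sub_distrib]
  have h1 : ∑ i, (if s (i, k) = t then sgn (σ (i, k)) else 0) * (if i = ρ then (1 : ℝ) else 0) =
      if s (ρ, k) = t then sgn (σ (ρ, k)) else 0 := by
    simp only [mul_ite, mul_one, mul_zero, sum_ite_eq', mem_univ, if_true]
  have h2 : ∑ i, (if s (i, k) = t then sgn (σ (i, k)) else 0) *
      (∑ y, if i = c y then (sgn (σ (ρ, y.1)) * sgn (σ (c y, y.1))) / m else 0) =
      ∑ y, (if s (c y, k) = t then tau ρ c k y σ / m else 0) := by
    simp only [mul_sum]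
    rw [sum_comm]
    refine sum_congr rfl fun y _ => ?_
    simp only [mul_ite, mul_zero, sum_ite_eq', mem_univ, if_true]
    unfold tau
    split_ifs <;> ring
  rw [h1, h2]
  have h3 : ∑ y : Fin ζ × Fin m, (if s (c y, k) = t then tau ρ c k y σ / m else 0) =
      ∑ y : Fin ζ × Fin m, (if y.1 ≠ k then (if s (c y, k) = t then tau ρ c k y σ / m else 0) else 0) +
      ∑ y : Fin ζ × Fin m, (if y.1 = k then (if s (ρ, k) = t then sgn (σ (ρ, k)) / m else 0) else 0) := by
    rw [← sum_add_distrib]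
    refine sum_congr rfl fun y _ => ?_
    by_cases hy : y.1 = k
    · subst hy
      simp only [ne_eq, not_true_eq_false, if_false, if_true, zero_add, hs, tau_diag]
    · rw [if_pos hy, if_neg hy, add_zero]
  have h4 : ∑ y : Fin ζ × Fin m, (if y.1 = k then (if s (ρ, k) = t then sgn (σ (ρ, k)) / m else 0) else 0)
      = if s (ρ, k) = t then sgn (σ (ρ, k)) else 0 := by
    rw [Fintype.sum_prod_type]
    simp only
    rw [Finset.sum_comm]
    simp only [sum_ite_eq', mem_univ, if_true, sum_const, card_univ, Fintype.card_fin, nsmul_eq_mul]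
    split_ifs
    · field_simp
    · ring
  rw [h3, h4]
  ring

/-- average over the signs of the squared norm of `√ζ Ωᵀ x` -/
lemma av_img (hm : 1 ≤ m) (s : Fin n × Fin ζ → Fin b) (ρ : Fin n) (c : Fin ζ × Fin m → Fin n)
    (hc : Function.Injective c) (hρ : ∀ x, c x ≠ ρ)
    (hs : ∀ x : Fin ζ × Fin m, s (c x, x.1) = s (ρ, x.1)) :
    av (fun σ : Fin n × Fin ζ → Bool => ∑ k, ∑ t, img s σ (tv ρ c σ) k t ^ 2) ≤
      (ζ : ℝ) * (ζ / m) := by
  have hm0 : (0 : ℝ) < m := by exact_mod_cast hm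
  rw [av_sum]
  have h : ∀ k : Fin ζ, av (fun σ : Fin n × Fin ζ → Bool => ∑ t, img s σ (tv ρ c σ) k t ^ 2) ≤
      ζ / m := by
    intro k
    have h1 : ∀ σ : Fin n × Fin ζ → Bool, ∑ t, img s σ (tv ρ c σ) k t ^ 2 =
        ∑ y : Fin ζ × Fin m, ∑ y' : Fin ζ × Fin m,
          (if y.1 ≠ k ∧ y'.1 ≠ k ∧ s (c y, k) = s (c y', k) then (1 / (m : ℝ) ^ 2) else 0) *
            (tau ρ c k y σ * tau ρ c k y' σ) := by
      intro σ
      have h2 : ∀ t, img s σ (tv ρ c σ) k t ^ 2 =
          ∑ y : Fin ζ × Fin m, ∑ y' : Fin ζ × Fin m,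
            (if y.1 ≠ k then (if s (c y, k) = t then tau ρ c k y σ / m else 0) else 0) *
            (if y'.1 ≠ k then (if s (c y', k) = t then tau ρ c k y' σ / m else 0) else 0) := by
        intro t
        rw [img_tv hm s ρ c hs, neg_sq, sq, sum_mul_sum]
      simp only [h2]
      rw [sum_comm]
      refine sum_congr rfl fun y _ => ?_
      rw [sum_comm]
      refine sum_congr rfl fun y' _ => ?_
      by_cases hy : y.1 = k
      · simp [hy]
      by_cases hy' : y'.1 = k
      · simp [hy']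
      simp only [ne_eq, hy, hy', not_false_eq_true, if_true, true_and]
      rw [Finset.sum_eq_single (s (c y, k))]
      · rw [if_pos rfl]
        by_cases hss : s (c y, k) = s (c y', k)
        · rw [if_pos hss.symm, if_pos hss]
          field_simp
        · rw [if_neg (fun h => hss h.symm), if_neg hss]
          ring
      · intro t _ ht
        rw [if_neg (fun h => ht h.symm), zero_mul]
      · intro h; exact absurd (mem_univ _) h
    rw [av_congr h1, av_sum]
    have h3 : ∀ y : Fin ζ × Fin m, av (fun σ : Fin n × Fin ζ → Bool => ∑ y' : Fin ζ × Fin m,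
          (if y.1 ≠ k ∧ y'.1 ≠ k ∧ s (c y, k) = s (c y', k) then (1 / (m : ℝ) ^ 2) else 0) *
            (tau ρ c k y σ * tau ρ c k y' σ)) ≤ 1 / (m : ℝ) ^ 2 := by
      intro y
      rw [av_sum]
      have h4 : ∀ y' : Fin ζ × Fin m, y' ≠ y → av (fun σ : Fin n × Fin ζ → Bool =>
          (if y.1 ≠ k ∧ y'.1 ≠ k ∧ s (c y, k) = s (c y', k) then (1 / (m : ℝ) ^ 2) else 0) *
            (tau ρ c k y σ * tau ρ c k y' σ)) = 0 := by
        intro y' hy'
        rw [av_mul_left]
        by_cases hy : y.1 ≠ k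
        · rw [av_tau ρ c hc hρ k y y' hy (Ne.symm hy'), mul_zero]
        · rw [if_neg (fun h => hy h.1), zero_mul]
      rw [Finset.sum_eq_single y (fun y' _ hy' => h4 y' hy') (fun h => absurd (mem_univ _) h)]
      rw [av_mul_left]
      have h5 : av (fun σ : Fin n × Fin ζ → Bool => tau ρ c k y σ * tau ρ c k y σ) = 1 := by
        simp only [tau_sq]
        exact av_const 1
      rw [h5, mul_one]
      split_ifs
      · exact le_rfl
      · positivity
    refine (sum_le_sum fun y _ => h3 y).trans (le_of_eq ?_)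
    rw [sum_const, card_univ, Fintype.card_prod, Fintype.card_fin, Fintype.card_fin, nsmul_eq_mul]
    push_cast
    field_simp
  refine (sum_le_sum fun k _ => h k).trans (le_of_eq ?_)
  rw [sum_const, card_univ, Fintype.card_fin, nsmul_eq_mul]

end Pool.Agent.Y975.SS
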