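import Mathlib
import Pool.Agent.Y975.SS.Sign

/-!
# Constant sparsity does not give an oblivious subspace injection: main estimate
-/

set_option autoImplicit false

open Finset Filter Topology

namespace Pool.Agent.Y975.SS

/-- The injectivity property on the coordinate subspace of the first `r` coordinates. -/
def Inj {n ζ b : ℕ} (r : ℕ) (α : ℝ) (s : Fin n × Fin ζ → Fin b) (σ : Fin n × Fin ζ → Bool) : Prop :=
  ∀ x : Fin n → ℝ, (∀ i : Fin n, r ≤ (i : ℕ) → x i = 0) →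
    α * ∑ i, x i ^ 2 ≤ (1 / (ζ : ℝ)) * ∑ k, ∑ t, img s σ x k t ^ 2

lemma tv_supp {n ζ m r : ℕ} (ρ : Fin n) (c : Fin ζ × Fin m → Fin n) (hρr : (ρ : ℕ) < r)
    (hcr : ∀ x, (c x : ℕ) < r) (σ : Fin n × Fin ζ → Bool) (i : Fin n) (hi : r ≤ (i : ℕ)) :
    tv ρ c σ i = 0 := by
  unfold tv
  have h1 : i ≠ ρ := by rintro rfl; omega
  rw [if_neg h1, zero_sub, neg_eq_zero]
  refine sum_eq_zero fun y _ => ?_
  rw [if_neg]
  rintro rfl
  have := hcr y
  omega

lemma tv_norm {n ζ m : ℕ} (ρ : Fin n) (c : Fin ζ × Fin m → Fin n) (hρ : ∀ x, c x ≠ ρ)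
    (σ : Fin n × Fin ζ → Bool) : 1 ≤ ∑ i, tv ρ c σ i ^ 2 := by
  have h1 : tv ρ c σ ρ = 1 := by
    unfold tv
    rw [if_pos rfl]
    have : ∑ y, (if ρ = c y then (sgn (σ (ρ, y.1)) * sgn (σ (c y, y.1))) / (m : ℝ) else 0) = 0 :=
      sum_eq_zero fun y _ => by rw [if_neg (fun h => hρ y h.symm)]
    rw [this, sub_zero]
  have h2 := single_le_sum (f := fun i => tv ρ c σ i ^ 2) (fun i _ => sq_nonneg _) (mem_univ ρ)
  simp only [h1, one_pow] at h2
  exact h2

/-- Given a gadget, few sign patterns are injective. -/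
lemma av_inj_gadget {n ζ b m r : ℕ} (hζ : 1 ≤ ζ) (hm : 1 ≤ m) (α : ℝ) (hα : 0 < α)
    (s : Fin n × Fin ζ → Fin b) (hG : Gadget r m s) :
    av (fun σ : Fin n × Fin ζ → Bool => open Classical in if Inj r α s σ then (1 : ℝ) else 0) ≤
      ζ / (m * α) := by
  classical
  obtain ⟨ρ, c, hc, hρ, hρr, hcr, hs⟩ := hG
  have hζ0 : (0 : ℝ) < ζ := by exact_mod_cast hζ
  have hm0 : (0 : ℝ) < m := by exact_mod_cast hm
  have h1 : ∀ σ : Fin n × Fin ζ → Bool, (if Inj r α s σ then (1 : ℝ) else 0) ≤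
      (1 / (α * ζ)) * ∑ k, ∑ t, img s σ (tv ρ c σ) k t ^ 2 := by
    intro σ
    have hnn : 0 ≤ ∑ k, ∑ t, img s σ (tv ρ c σ) k t ^ 2 :=
      sum_nonneg fun k _ => sum_nonneg fun t _ => sq_nonneg _
    split_ifs with h
    · have h2 := h (tv ρ c σ) (fun i hi => tv_supp ρ c hρr hcr σ i hi)
      have h3 := tv_norm ρ c hρ σ
      have h4 : α ≤ (1 / (ζ : ℝ)) * ∑ k, ∑ t, img s σ (tv ρ c σ) k t ^ 2 := by nlinarith
      have h5 : (1 / (α * ζ)) * ∑ k, ∑ t, img s σ (tv ρ c σ) k t ^ 2 =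
          (1 / α) * ((1 / (ζ : ℝ)) * ∑ k, ∑ t, img s σ (tv ρ c σ) k t ^ 2) := by
        field_simp
      rw [h5]
      calc (1 : ℝ) = (1 / α) * α := by field_simp
        _ ≤ _ := mul_le_mul_of_nonneg_left h4 (by positivity)
    · positivity
  refine (av_mono h1).trans ?_
  rw [av_mul_left]
  have h2 := av_img hm s ρ c hc hρ hs
  calc (1 / (α * ζ)) * av (fun σ : Fin n × Fin ζ → Bool => ∑ k, ∑ t, img s σ (tv ρ c σ) k t ^ 2)
      ≤ (1 / (α * ζ)) * ((ζ : ℝ) * (ζ / m)) := mul_le_mul_of_nonneg_left h2 (by positivity)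
    _ = ζ / (m * α) := by field_simp

/-- The probability of injectivity. -/
theorem av_inj {n r N ζ m b : ℕ} (hζ : 1 ≤ ζ) (hm : 1 ≤ m) (hb : 1 ≤ b) (hN : 1 ≤ N)
    (hNr : (ζ * m + 1) * N ≤ r) (hr : r ≤ n) (p : ℝ) (hp : 0 < p) (hp1 : p ≤ 1)
    (hpq : qq N b ≤ 1 - p) (α : ℝ) (hα : 0 < α) :
    av (fun z : (Fin n × Fin ζ → Fin b) × (Fin n × Fin ζ → Bool) =>
      open Classical in if Inj r α z.1 z.2 then (1 : ℝ) else 0) ≤
      ζ / (m * α) + ((1 - (p ^ m / 2) ^ ζ) ^ N + ζ * (4 * m / (N * p ^ (2 * m)))) := by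
  classical
  have : Nonempty (Fin b) := ⟨⟨0, hb⟩⟩
  rw [av_prod]
  have h1 : ∀ s : Fin n × Fin ζ → Fin b,
      av (fun σ : Fin n × Fin ζ → Bool => if Inj r α s σ then (1 : ℝ) else 0) ≤
        ζ / (m * α) + (if Gadget r m s then (0 : ℝ) else 1) := by
    intro s
    by_cases hG : Gadget r m s
    · rw [if_pos hG, add_zero]
      exact av_inj_gadget hζ hm α hα s hG
    · rw [if_neg hG]
      have h2 : av (fun σ : Fin n × Fin ζ → Bool => if Inj r α s σ then (1 : ℝ) else 0) ≤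
          av (fun _ : Fin n × Fin ζ → Bool => (1 : ℝ)) := by
        refine av_mono fun σ => ?_
        split_ifs <;> norm_num
      rw [av_const] at h2
      have h3 : 0 ≤ (ζ : ℝ) / (m * α) := by positivity
      linarith
  refine (av_mono h1).trans ?_
  rw [av_add, av_const]
  have h2 := gadget_bad (n := n) (r := r) (N := N) (ζ := ζ) (m := m) hb hN hNr hr p hp hp1 hpq
  have h3 : av (fun s : Fin n × Fin ζ → Fin b => if Gadget r m s then (0 : ℝ) else 1) ≤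
      (1 - (p ^ m / 2) ^ ζ) ^ N + ζ * (4 * m / (N * p ^ (2 * m))) := by
    convert h2
  linarith

/-- Asymptotic form. -/
theorem av_inj_small (C₁ C₂ α η : ℝ) (hα : 0 < α) (hη : 0 < η) :
    ∃ r₀ : ℕ, ∀ r n : ℕ, r₀ ≤ r → r ≤ n → ∀ ζ b : ℕ, 1 ≤ ζ → 1 ≤ b → (ζ : ℝ) ≤ C₁ →
      ((b * ζ : ℕ) : ℝ) ≤ C₂ * r →
      av (fun z : (Fin n × Fin ζ → Fin b) × (Fin n × Fin ζ → Bool) =>
        open Classical in if Inj r α z.1 z.2 then (1 : ℝ) else 0) ≤ η := by
  classical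
  set Z := ⌊C₁⌋₊ with hZ
  set m := ⌈2 * (Z : ℝ) / (α * η)⌉₊ + 1 with hm
  set M := Z * m + 1 with hM
  set C := max C₂ 1 with hC
  have hC1 : 1 ≤ C := le_max_right _ _
  have hM1 : (1 : ℝ) ≤ M := by rw [hM]; push_cast; have : (0:ℝ) ≤ (Z:ℝ) * m := by positivity
                               linarith
  set κ : ℝ := 1 / (2 * C * M) with hκ
  have hκ0 : 0 < κ := by positivity
  set p : ℝ := 1 - Real.exp (-κ) with hp
  have hp0 : 0 < p := by
    have h := Real.exp_lt_exp.2 (show -κ < 0 by linarith)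
    rw [Real.exp_zero] at h
    linarith
  have hp1 : p ≤ 1 := by
    have := Real.exp_pos (-κ)
    linarith
  have hm1 : 1 ≤ m := by omega
  have hm0 : (0 : ℝ) < m := by exact_mod_cast hm1
  have hpm0 : 0 < p ^ m / 2 := by positivity
  have hpm1 : p ^ m / 2 ≤ 1 := by
    have : p ^ m ≤ 1 := pow_le_one₀ hp0.le hp1
    linarith
  -- choice of `N₀`
  have hlim : Tendsto (fun N : ℕ => (1 - (p ^ m / 2) ^ Z) ^ N + Z * (4 * m / (N * p ^ (2 * m))))
      atTop (𝓝 (0 + Z * 0)) := by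
    apply Tendsto.add
    · apply tendsto_pow_atTop_nhds_zero_of_lt_one
      · have : (p ^ m / 2) ^ Z ≤ 1 := pow_le_one₀ hpm0.le hpm1
        linarith
      · have : 0 < (p ^ m / 2) ^ Z := by positivity
        linarith
    · apply Tendsto.const_mul
      have h1 : Tendsto (fun N : ℕ => (4 * (m : ℝ) / p ^ (2 * m)) / (N : ℝ)) atTop (𝓝 0) :=
        tendsto_const_div_atTop_nhds_zero_nat _
      refine h1.congr fun N => ?_
      rw [div_div, mul_comm (p ^ (2 * m)) (N : ℝ)]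
  have hlim0 : (0 : ℝ) + Z * 0 < η / 2 := by simp; linarith
  obtain ⟨N₀, hN₀⟩ := eventually_atTop.1 (hlim.eventually (gt_mem_nhds hlim0))
  refine ⟨M * max N₀ 1, fun r n hr0 hrn ζ b hζ hb hζC hbC => ?_⟩
  have hζZ : ζ ≤ Z := Nat.le_floor hζC
  have hMpos : 0 < M := by omega
  set N := r / M with hN
  have hNN : max N₀ 1 ≤ N := by
    rw [hN, Nat.le_div_iff_mul_le hMpos, mul_comm]
    exact hr0
  have hN1 : 1 ≤ N := (le_max_right _ _).trans hNN
  have hN' : (1 : ℝ) ≤ N := by exact_mod_cast hN1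
  have hNr : (ζ * m + 1) * N ≤ r := by
    have h1 : (ζ * m + 1) * N ≤ M * N := by
      apply Nat.mul_le_mul_right
      rw [hM]
      have := Nat.mul_le_mul_right m hζZ
      omega
    have h2 : M * N ≤ r := by rw [hN]; exact Nat.mul_div_le r M
    omega
  have hb' : (1 : ℝ) ≤ b := by exact_mod_cast hb
  have hrN : (r : ℝ) ≤ 2 * M * N := by
    have h1 : r < M * (N + 1) := by
      rw [hN]
      exact Nat.lt_mul_div_succ r hMpos
    have h2 : r ≤ M * (N + N) := by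
      have : M * (N + 1) ≤ M * (N + N) := Nat.mul_le_mul_left M (by omega)
      omega
    have h3 : (r : ℝ) ≤ ((M * (N + N) : ℕ) : ℝ) := by exact_mod_cast h2
    push_cast at h3
    linarith
  have hbr : (b : ℝ) ≤ C * r := by
    have h1 : (b : ℝ) ≤ ((b * ζ : ℕ) : ℝ) := by
      exact_mod_cast Nat.le_mul_of_pos_right b hζ
    have h2 : C₂ * r ≤ C * r := mul_le_mul_of_nonneg_right (le_max_left _ _) (Nat.cast_nonneg _)
    linarith
  have hκN : κ ≤ (N : ℝ) / b := by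
    rw [hκ, div_le_div_iff₀ (by positivity) (by linarith)]
    have h1 : C * r ≤ C * (2 * M * N) := mul_le_mul_of_nonneg_left hrN (by linarith)
    linarith
  have hpq : qq N b ≤ 1 - p := by
    refine (qq_le_exp N b hb).trans ?_
    have : Real.exp (-((N : ℝ) / b)) ≤ Real.exp (-κ) := Real.exp_le_exp.2 (by linarith)
    linarith
  refine (av_inj hζ hm1 hb hN1 hNr hrn p hp0 hp1 hpq α hα).trans ?_
  have hb1 := hN₀ N ((le_max_left _ _).trans hNN)
  have hζZ' : (ζ : ℝ) ≤ Z := by exact_mod_cast hζZ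
  have e1 : (ζ : ℝ) / (m * α) ≤ η / 2 := by
    rw [div_le_iff₀ (by positivity)]
    have h1 : 2 * (Z : ℝ) / (α * η) ≤ m := by
      rw [hm]; push_cast
      have := Nat.le_ceil (2 * (Z : ℝ) / (α * η))
      linarith
    rw [div_le_iff₀ (by positivity)] at h1
    nlinarith
  have e2 : (1 - (p ^ m / 2) ^ ζ) ^ N ≤ (1 - (p ^ m / 2) ^ Z) ^ N := by
    apply pow_le_pow_left₀
    · have : (p ^ m / 2) ^ ζ ≤ 1 := pow_le_one₀ hpm0.le hpm1
      linarith
    · have := pow_le_pow_of_le_one hpm0.le hpm1 hζZ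
      linarith
  have e3 : (ζ : ℝ) * (4 * m / (N * p ^ (2 * m))) ≤ Z * (4 * m / (N * p ^ (2 * m))) :=
    mul_le_mul_of_nonneg_right hζZ' (by positivity)
  linarith

end Pool.Agent.Y975.SS
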